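import Mathlib

set_option autoImplicit false

/-!
# MP_24d2d6: a quasi-rigid operator `T` for which no orbit `{T^n Λ}` covers `Ω(T)`
-/

namespace Pool.Agent.Results.MP_24d2d6_an.NotCovered

open Filter Topology Set
open scoped ENNReal

section defs

variable {X : Type} [NormedAddCommGroup X] [NormedSpace ℂ X]

/-- `T` is quasi-rigid: `T ^ θ n x → x` on a dense set, for a strictly increasing sequence of
positive integers `θ n`. -/
def QuasiRigid (T : X →L[ℂ] X) : Prop :=
  ∃ θ : ℕ → ℕ, StrictMono θ ∧ (∀ n, 0 < θ n) ∧ ∃ D : Set X, Dense D ∧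
    ∀ x ∈ D, Tendsto (fun n => (T ^ θ n) x) atTop (𝓝 x)

/-- The set `Ω(T)`. -/
def Omega (T : X →L[ℂ] X) : Set (X →L[ℂ] X) :=
  {h | ∃ ω : ℕ → ℕ, StrictMono ω ∧ (∀ n, 0 < ω n) ∧ ∃ D : Set X, Dense D ∧
    ∀ x ∈ D, Tendsto (fun n => (T ^ ω n) x) atTop (𝓝 (h x))}

/-- The closure in the strong operator topology. -/
def SOTClosure (A : Set (X →L[ℂ] X)) : Set (X →L[ℂ] X) :=
  {h | ∀ (F : Finset X) (ε : ℝ), 0 < ε → ∃ S ∈ A, ∀ x ∈ F, ‖S x - h x‖ < ε}

end defs

/-- The space `ℓ₁` of complex sequences. -/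
abbrev E : Type := lp (fun _ : ℕ => ℂ) 1

theorem hasSum_norm (a : E) : HasSum (fun k => ‖a k‖) ‖a‖ := by
  have h := lp.hasSum_norm (p := 1) (by simp) a
  simpa using h

theorem norm_coord_le (a : E) (k : ℕ) : ‖a k‖ ≤ ‖a‖ :=
  le_hasSum (hasSum_norm a) k fun _ _ => norm_nonneg _

/-- The diagonal operator with unimodular entries `lam k`. -/
noncomputable def diag (lam : ℕ → ℂ) (hlam : ∀ k, ‖lam k‖ = 1) : E →L[ℂ] E :=
  LinearMap.mkContinuous
    { toFun := fun a => ⟨fun k => lam k * a k, by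
        refine memℓp_gen ?_
        simpa [norm_mul, hlam] using (hasSum_norm a).summable⟩
      map_add' := fun a b => by
        ext k
        exact mul_add _ _ _
      map_smul' := fun c a => by
        ext k
        exact mul_left_comm _ _ _ } 1 (fun a => by
      rw [one_mul]
      refine le_of_eq ?_
      refine (hasSum_norm _).unique ?_
      have h : ∀ k, ‖lam k * a k‖ = ‖a k‖ := fun k => by rw [norm_mul, hlam, one_mul]
      have := hasSum_norm a
      simp only [← h] at this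
      exact this)

theorem diag_apply (lam : ℕ → ℂ) (hlam : ∀ k, ‖lam k‖ = 1) (a : E) (k : ℕ) :
    diag lam hlam a k = lam k * a k := rfl

/-- The periods. -/
def N (k : ℕ) : ℕ := 8 * 16 ^ (k ^ 2)

theorem N_pos (k : ℕ) : 0 < N k := by unfold N; positivity

theorem N_strictMono : StrictMono N := by
  refine strictMono_nat_of_lt_succ fun k => ?_
  unfold N
  have : 16 ^ (k ^ 2) < 16 ^ ((k + 1) ^ 2) := Nat.pow_lt_pow_right (by norm_num)
    (Nat.pow_lt_pow_left (Nat.lt_succ_self k) two_ne_zero)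
  omega

theorem N_dvd {k n : ℕ} (h : k ≤ n) : N k ∣ N n := by
  unfold N
  exact Nat.mul_dvd_mul_left _ (pow_dvd_pow _ (Nat.pow_le_pow_left h 2))

theorem le_N (k : ℕ) : k ≤ N k := N_strictMono.id_le k

/-- The diagonal entries. -/
noncomputable def lam (k : ℕ) : ℂ := Complex.exp (2 * Real.pi * Complex.I / N k)

theorem lam_prim (k : ℕ) : IsPrimitiveRoot (lam k) (N k) :=
  Complex.isPrimitiveRoot_exp _ (N_pos k).ne'

theorem norm_lam (k : ℕ) : ‖lam k‖ = 1 := (lam_prim k).norm'_eq_one (N_pos k).ne'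

theorem lam_pow {k n : ℕ} (h : k ≤ n) : lam k ^ N n = 1 := by
  obtain ⟨c, hc⟩ := N_dvd h
  rw [hc, pow_mul, (lam_prim k).pow_eq_one, one_pow]

theorem sum_lam {k n : ℕ} (h : k ≤ n) : ∑ l ∈ Finset.range (N n), lam k ^ l = 0 := by
  have h1 : lam k ≠ 1 := (lam_prim k).ne_one (by
    unfold N
    have : 0 < 16 ^ (k ^ 2) := by positivity
    omega)
  rw [geom_sum_eq h1, lam_pow h, sub_self, zero_div]

/-- The operator. -/
noncomputable def T : E × E →L[ℂ] E × E :=
  (ContinuousLinearMap.fst ℂ E E + ContinuousLinearMap.snd ℂ E E).prod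
    ((diag lam norm_lam).comp (ContinuousLinearMap.snd ℂ E E))

theorem norm_lam_inv (k : ℕ) : ‖(lam k)⁻¹‖ = 1 := by rw [norm_inv, norm_lam, inv_one]

/-- Its inverse. -/
noncomputable def S : E × E →L[ℂ] E × E :=
  (ContinuousLinearMap.fst ℂ E E -
    (diag (fun k => (lam k)⁻¹) norm_lam_inv).comp (ContinuousLinearMap.snd ℂ E E)).prod
    ((diag (fun k => (lam k)⁻¹) norm_lam_inv).comp (ContinuousLinearMap.snd ℂ E E))

theorem T_fst (v : E × E) (k : ℕ) : (T v).1 k = v.1 k + v.2 k := rfl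
theorem T_snd (v : E × E) (k : ℕ) : (T v).2 k = lam k * v.2 k := rfl
theorem S_fst (v : E × E) (k : ℕ) : (S v).1 k = v.1 k - (lam k)⁻¹ * v.2 k := rfl
theorem S_snd (v : E × E) (k : ℕ) : (S v).2 k = (lam k)⁻¹ * v.2 k := rfl

theorem lam_ne (k : ℕ) : lam k ≠ 0 := by
  rw [← norm_pos_iff, norm_lam]
  exact one_pos

theorem TS : T * S = 1 := by
  refine ContinuousLinearMap.ext fun v => Prod.ext ?_ ?_
  · ext k
    change (T (S v)).1 k = v.1 k
    rw [T_fst, S_fst, S_snd]
    ring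
  · ext k
    change (T (S v)).2 k = v.2 k
    rw [T_snd, S_snd, mul_inv_cancel_left₀ (lam_ne k)]

theorem ST : S * T = 1 := by
  refine ContinuousLinearMap.ext fun v => Prod.ext ?_ ?_
  · ext k
    change (S (T v)).1 k = v.1 k
    rw [S_fst, T_fst, T_snd, inv_mul_cancel_left₀ (lam_ne k)]
    ring
  · ext k
    change (S (T v)).2 k = v.2 k
    rw [S_snd, T_snd, inv_mul_cancel_left₀ (lam_ne k)]

theorem pow_T_snd (n : ℕ) (v : E × E) (k : ℕ) : ((T ^ n) v).2 k = lam k ^ n * v.2 k := by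
  induction n with
  | zero => simp
  | succ n ih =>
    rw [pow_succ']
    change (T ((T ^ n) v)).2 k = _
    rw [T_snd, ih]
    ring

theorem pow_T_fst (n : ℕ) (v : E × E) (k : ℕ) :
    ((T ^ n) v).1 k = v.1 k + (∑ l ∈ Finset.range n, lam k ^ l) * v.2 k := by
  induction n with
  | zero => simp
  | succ n ih =>
    rw [pow_succ']
    change (T ((T ^ n) v)).1 k = _
    rw [T_fst, ih, pow_T_snd, Finset.sum_range_succ]
    ring

/-- The dense set of vectors whose second component is finitely supported. -/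
def Dset : Set (E × E) := {v | ∃ K, ∀ k, K ≤ k → v.2 k = 0}

theorem dense_fin : Dense {a : E | ∃ K, ∀ k, K ≤ k → a k = 0} := by
  intro a
  have h := lp.hasSum_single (E := fun _ : ℕ => ℂ) (p := 1) (by simp) a
  have h2 := h.tendsto_sum_nat
  refine mem_closure_of_tendsto h2 (Eventually.of_forall fun n => ⟨n, fun k hk => ?_⟩)
  rw [lp.coeFn_sum, Finset.sum_apply]
  refine Finset.sum_eq_zero fun j hj => ?_
  rw [lp.single_apply_ne]
  have := Finset.mem_range.1 hj
  omega

theorem dense_Dset : Dense Dset := by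
  have : Dset = (univ : Set E) ×ˢ {a : E | ∃ K, ∀ k, K ≤ k → a k = 0} := by
    ext v
    simp [Dset]
  rw [this]
  exact dense_univ.prod dense_fin

theorem pow_N_eq {v : E × E} {K : ℕ} (hv : ∀ k, K ≤ k → v.2 k = 0) {n : ℕ} (hn : K ≤ n) :
    (T ^ N n) v = v := by
  refine Prod.ext ?_ ?_
  · ext k
    rw [pow_T_fst]
    rcases lt_or_ge k K with h | h
    · rw [sum_lam (by omega), zero_mul, add_zero]
    · rw [hv k h, mul_zero, add_zero]
  · ext k
    rw [pow_T_snd]
    rcases lt_or_ge k K with h | h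
    · rw [lam_pow (by omega), one_mul]
    · rw [hv k h, mul_zero]

theorem quasiRigid_T : QuasiRigid T := by
  refine ⟨N, N_strictMono, N_pos, Dset, dense_Dset, fun v ⟨K, hK⟩ => ?_⟩
  refine tendsto_const_nhds.congr' ?_
  filter_upwards [eventually_ge_atTop K] with n hn
  exact (pow_N_eq hK hn).symm

theorem pow_sub_eq {j n : ℕ} (h : j ≤ n) : T ^ (n - j) = S ^ j * T ^ n := by
  have h1 : S ^ j * T ^ j = 1 := by
    have : Commute S T := by
      change S * T = T * S
      rw [ST, TS]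
    rw [← this.mul_pow, ST, one_pow]
  conv_rhs => rw [← Nat.add_sub_of_le h, pow_add, ← mul_assoc, h1, one_mul]

theorem S_pow_mem (j : ℕ) : S ^ j ∈ Omega T := by
  refine ⟨fun n => N (n + j) - j, ?_, fun n => ?_, Dset, dense_Dset, fun v ⟨K, hK⟩ => ?_⟩
  · intro a b hab
    have h1 := N_strictMono (show a + j < b + j by omega)
    have h2 := le_N (a + j)
    simp only
    omega
  · have h1 : n + j < N (n + j) := by
      have := N_strictMono.id_le (n + j)
      unfold N at *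
      have h3 : n + j < 16 ^ ((n + j) ^ 2) := by
        refine lt_of_le_of_lt ?_ (Nat.lt_pow_self (by norm_num : 1 < 16))
        nlinarith [Nat.zero_le (n + j)]
      omega
    simp only
    omega
  · refine tendsto_const_nhds.congr' ?_
    filter_upwards [eventually_ge_atTop K] with n hn
    have h2 := le_N (n + j)
    rw [pow_sub_eq (by omega)]
    change (S ^ j) v = (S ^ j) ((T ^ N (n + j)) v)
    rw [pow_N_eq hK (by omega)]

/-- Lower bound for the exponential sums. -/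
theorem sum_ge {k m : ℕ} (h : 8 * m ≤ N k) : (m : ℝ) / 2 ≤ ‖∑ l ∈ Finset.range m, lam k ^ l‖ := by
  refine le_trans ?_ (Complex.re_le_norm _)
  rw [Complex.re_sum]
  have hN : (0 : ℝ) < N k := by exact_mod_cast N_pos k
  have key : ∀ l ∈ Finset.range m, (1 / 2 : ℝ) ≤ (lam k ^ l).re := by
    intro l hl
    have hl' : l < m := Finset.mem_range.1 hl
    have e1 : lam k ^ l = Complex.exp (((2 * Real.pi * l / N k : ℝ) : ℂ) * Complex.I) := by
      unfold lam
      rw [← Complex.exp_nat_mul]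
      congr 1
      push_cast
      ring
    rw [e1, Complex.exp_ofReal_mul_I_re]
    have h1 : (l : ℝ) / N k ≤ 1 / 8 := by
      rw [div_le_iff₀ hN]
      have : ((8 * m : ℕ) : ℝ) ≤ N k := by exact_mod_cast h
      push_cast at this
      have : (l : ℝ) ≤ m := by exact_mod_cast hl'.le
      linarith
    have h2 : 2 * Real.pi * l / N k ≤ Real.pi / 3 := by
      have : 2 * Real.pi * l / N k = 2 * Real.pi * ((l : ℝ) / N k) := by ring
      rw [this]
      have := Real.pi_pos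
      nlinarith
    have h3 : 0 ≤ 2 * Real.pi * l / N k := by
      have := Real.pi_pos
      positivity
    rw [← Real.cos_pi_div_three]
    refine Real.cos_le_cos_of_nonneg_of_le_pi h3 ?_ h2
    have := Real.pi_pos
    linarith
  have := Finset.sum_le_sum key
  rw [Finset.sum_const, Finset.card_range, nsmul_eq_mul] at this
  linarith

/-- The test vector. -/
noncomputable def y : E := ⟨fun k => (1 / 2 : ℂ) ^ k, by
  refine memℓp_gen ?_
  simpa using summable_geometric_two⟩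

theorem y_apply (k : ℕ) : y k = (1 / 2 : ℂ) ^ k := rfl

theorem growth (Lam : E × E →L[ℂ] E × E)
    (h1 : ∀ k, ‖(Lam (0, y)).2 k‖ = ‖y k‖) :
    ∃ m₀ : ℕ, ∀ m, m₀ ≤ m → 1 ≤ ‖(T ^ m) (Lam (0, y)) - (0, y)‖ := by
  obtain ⟨k₀, hk₀⟩ := exists_nat_gt (‖Lam (0, y)‖ + 1)
  refine ⟨N (k₀ + 2), fun m hm => ?_⟩
  -- the first block with `8 m ≤ N k`
  have hex : ∃ k, 8 * m ≤ N k := ⟨8 * m, le_N _⟩
  classical
  obtain ⟨k, hk, hmin⟩ : ∃ k, 8 * m ≤ N k ∧ ∀ j < k, ¬ 8 * m ≤ N j :=
    ⟨Nat.find hex, Nat.find_spec hex, fun j hj => Nat.find_min hex hj⟩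
  have hkk : k₀ + 2 < k := by
    by_contra hcon
    push Not at hcon
    have := N_strictMono.monotone hcon
    have := N_pos (k₀ + 2)
    omega
  have hm2 : N (k - 1) < 8 * m := by
    have := hmin (k - 1) (by omega)
    omega
  have e1 : ‖((T ^ m) (Lam (0, y)) - (0, y)).1 k‖ ≤ ‖(T ^ m) (Lam (0, y)) - (0, y)‖ :=
    (norm_coord_le _ k).trans (norm_fst_le _)
  have e2 : ((T ^ m) (Lam (0, y)) - (0, y)).1 k =
      (Lam (0, y)).1 k + (∑ l ∈ Finset.range m, lam k ^ l) * (Lam (0, y)).2 k := by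
    have : ((T ^ m) (Lam (0, y)) - (0, y)).1 k = ((T ^ m) (Lam (0, y))).1 k - 0 := rfl
    rw [this, pow_T_fst, sub_zero]
  have e3 : ‖(Lam (0, y)).1 k‖ ≤ ‖Lam (0, y)‖ := (norm_coord_le _ k).trans (norm_fst_le _)
  have e4 : ‖y k‖ = (1 / 2 : ℝ) ^ k := by
    rw [y_apply, norm_pow]
    norm_num
  have e5 : (m : ℝ) / 2 * (1 / 2) ^ k ≤
      ‖(∑ l ∈ Finset.range m, lam k ^ l) * (Lam (0, y)).2 k‖ := by
    rw [norm_mul, h1, e4]
    exact mul_le_mul_of_nonneg_right (sum_ge hk) (by positivity)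
  have e6 : (k₀ : ℝ) ≤ (m : ℝ) / 2 * (1 / 2) ^ k := by
    have h2 : 16 ^ ((k - 1) ^ 2) ≤ m := by
      unfold N at hm2
      omega
    have h3 : (k₀ * 2 * 2 ^ k : ℕ) ≤ 16 ^ ((k - 1) ^ 2) := by
      obtain ⟨i, rfl⟩ : ∃ i, k = i + 1 := ⟨k - 1, by omega⟩
      have h4 : k₀ ≤ 2 ^ i := by
        have := (Nat.lt_pow_self (n := i) (by norm_num : 1 < 2)).le
        omega
      have h5 : (16 : ℕ) ^ ((i + 1 - 1) ^ 2) = 2 ^ (4 * i ^ 2) := by
        rw [Nat.add_sub_cancel, show (16 : ℕ) = 2 ^ 4 by norm_num, ← pow_mul]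
      rw [h5]
      calc k₀ * 2 * 2 ^ (i + 1) ≤ 2 ^ i * 2 * 2 ^ (i + 1) := by gcongr
        _ = 2 ^ (2 * i + 2) := by rw [← pow_succ, ← pow_add]; congr 1; ring
        _ ≤ 2 ^ (4 * i ^ 2) := Nat.pow_le_pow_right (by norm_num) (by nlinarith)
    have h6 : ((k₀ * 2 * 2 ^ k : ℕ) : ℝ) ≤ m := by exact_mod_cast h3.trans h2
    push_cast at h6
    rw [one_div, inv_pow, div_mul_eq_mul_div, le_div_iff₀ (by norm_num), ← div_eq_mul_inv,
      le_div_iff₀ (by positivity)]
    linarith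
  have e7 := norm_sub_le_norm_add (((∑ l ∈ Finset.range m, lam k ^ l)) * (Lam (0, y)).2 k)
    ((Lam (0, y)).1 k)
  rw [e2, add_comm] at e1
  linarith

theorem separable_E : TopologicalSpace.SeparableSpace E := by
  have h1 : (range fun k : ℕ => lp.single (E := fun _ : ℕ => ℂ) 1 k (1 : ℂ)).Countable :=
    countable_range _
  have h2 := (h1.isSeparable.span (R := ℂ)).closure
  rw [← TopologicalSpace.isSeparable_univ_iff]
  refine h2.mono fun a _ => ?_
  have h := lp.hasSum_single (E := fun _ : ℕ => ℂ) (p := 1) (by simp) a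
  refine mem_closure_of_tendsto h.tendsto_sum_nat (Eventually.of_forall fun n => ?_)
  refine Submodule.sum_mem _ fun k _ => ?_
  have : (lp.single (E := fun _ : ℕ => ℂ) 1 k (a k)) =
      a k • lp.single (E := fun _ : ℕ => ℂ) 1 k (1 : ℂ) := by
    rw [← lp.single_smul, smul_eq_mul, mul_one]
  rw [this]
  exact Submodule.smul_mem _ _ (Submodule.subset_span ⟨k, rfl⟩)

/-- There are a separable complex Banach space and a quasi-rigid operator `T` on it such that for
every bounded operator `Λ` some element of `Ω(T)` is outside the strong operator closure of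
`{T ^ n Λ : n ≥ 1}`. -/
theorem result : ∃ (X : Type) (_ : NormedAddCommGroup X) (_ : NormedSpace ℂ X),
    CompleteSpace X ∧ TopologicalSpace.SeparableSpace X ∧ ∃ T : X →L[ℂ] X, QuasiRigid T ∧
      ∀ Lam : X →L[ℂ] X, ∃ h ∈ Omega T, h ∉ SOTClosure {R | ∃ n : ℕ, 1 ≤ n ∧ R = T ^ n * Lam} := by
  have := separable_E
  refine ⟨E × E, inferInstance, inferInstance, inferInstance, inferInstance, T, quasiRigid_T,
    fun Lam => ?_⟩
  by_contra hcon
  push Not at hcon
  -- approximation of the identity with arbitrarily large powers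
  have key : ∀ (j : ℕ) (v : E × E) (ε : ℝ), 0 < ε → ∃ m, j < m ∧ ‖(T ^ m) (Lam v) - v‖ < ε := by
    intro j v ε hε
    obtain ⟨R, ⟨n, hn, rfl⟩, hR⟩ := hcon _ (S_pow_mem j) {v} (ε / (‖T ^ j‖ + 1))
      (by have := norm_nonneg (T ^ j); positivity)
    refine ⟨j + n, by omega, ?_⟩
    have h1 := hR v (Finset.mem_singleton_self v)
    have h2 : T ^ j * S ^ j = 1 := by
      have : Commute T S := by
        change T * S = S * T
        rw [ST, TS]
      rw [← this.mul_pow, TS, one_pow]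
    have h3 : (T ^ (j + n)) (Lam v) - v = (T ^ j) ((T ^ n * Lam) v - (S ^ j) v) := by
      rw [map_sub, pow_add]
      congr 1
      change v = (T ^ j * S ^ j) v
      rw [h2]
      rfl
    rw [h3]
    refine ((T ^ j).le_opNorm _).trans_lt ?_
    have h4 : ‖T ^ j‖ * ‖(T ^ n * Lam) v - (S ^ j) v‖ ≤
        (‖T ^ j‖ + 1) * ‖(T ^ n * Lam) v - (S ^ j) v‖ :=
      mul_le_mul_of_nonneg_right (by linarith) (norm_nonneg _)
    refine h4.trans_lt ?_
    have h5 : 0 < ‖T ^ j‖ + 1 := by have := norm_nonneg (T ^ j); positivity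
    rw [lt_div_iff₀ h5] at h1
    linarith
  have h1 : ∀ k, ‖(Lam (0, y)).2 k‖ = ‖y k‖ := by
    intro k
    refine eq_of_forall_dist_le fun ε hε => ?_
    obtain ⟨m, -, hm⟩ := key 0 (0, y) ε hε
    have h2 : ‖((T ^ m) (Lam (0, y)) - (0, y)).2 k‖ ≤ ‖(T ^ m) (Lam (0, y)) - (0, y)‖ :=
      (norm_coord_le _ k).trans (norm_snd_le _)
    have h3 : ((T ^ m) (Lam (0, y)) - (0, y)).2 k = lam k ^ m * (Lam (0, y)).2 k - y k := by
      have : ((T ^ m) (Lam (0, y)) - (0, y)).2 k = ((T ^ m) (Lam (0, y))).2 k - y k := rfl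
      rw [this, pow_T_snd]
    have h4 : ‖lam k ^ m * (Lam (0, y)).2 k‖ = ‖(Lam (0, y)).2 k‖ := by
      rw [norm_mul, norm_pow, norm_lam, one_pow, one_mul]
    rw [Real.dist_eq, ← h4]
    refine (abs_norm_sub_norm_le _ _).trans ?_
    rw [← h3]
    exact (h2.trans_lt hm).le
  obtain ⟨m₀, hm₀⟩ := growth Lam h1
  obtain ⟨m, hm, hlt⟩ := key m₀ (0, y) 1 one_pos
  exact absurd (hm₀ m hm.le) (not_le.2 hlt)

end Pool.Agent.Results.MP_24d2d6_an.NotCovered
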